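import Pool.Agent.P.MP_6277db_ag.KEW.St.Final
import Pool.Agent.P.MP_6277db_ag.KEW.St.NV

open CategoryTheory AlgebraicGeometry Pool.Agent.KEW.St

namespace Pool.Agent.Results.MP_6277db_ag.Restriction

theorem result (A : Type) [CommRing A] [IsDomain A] [IsDiscreteValuationRing A]
    [HenselianLocalRing A] [PerfectField (IsLocalRing.ResidueField A)]
    (m : ℕ) (hm : (m : IsLocalRing.ResidueField A) ≠ 0) :
    (∃ E : Spt (ULift.{1} (ZMod m)) (big A),
      IsMotCoh m E ∧ IsVoev m E (ObjectProperty.ι (IsSm (A := A)))) ∧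
    ∀ E : Spt (ULift.{1} (ZMod m)) (big A), IsMotCoh m E →
      ∀ (X Y : Big A) (ι : Y ⟶ X), IsProj X → IsSpecialFibre ι →
        ∀ (i : ℤ) (j : ℕ), topologicalKrullDim ((big A).obj Y) ≤ j →
          Function.Bijective (Coh.map E i j ι) :=
  ⟨exists_isMotCoh A m, fun E hE X Y ι hX hY i j hj => final A m hm E hE X Y ι hX hY i j hj⟩

end Pool.Agent.Results.MP_6277db_ag.Restriction
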