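import Pool.Agent.P.MP_6277db_ag.Final
import Pool.Agent.P.MP_6277db_ag.Geom

open CategoryTheory AlgebraicGeometry Pool.Agent.P.MP_6277db_ag

/-- Over `A = k⟦t⟧` there is a regular connected scheme `X`, projective and flat over `A`, whose
reduced special fibre `Y` is a strict normal crossings divisor of dimension `d = 1`, such that the
restriction map `H¹_cdh(X, ℤ/m) → H¹_cdh(Y, ℤ/m)` (bidegree `(i, j) = (1, 0)`, `i - j = d`) is not
surjective. -/
theorem Pool.Agent.Results.MP_6277db_ag.WeightZero.result (k : Type) [Field k] (m : ℕ)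
    (hm : m ≠ 1) :
    ∃ (X Y : FT (Spec (CommRingCat.of (PowerSeries k)))) (ι : Y ⟶ X),
      IsSNCModel X.obj.hom ι.hom.left 1 ∧
      ¬ Function.Surjective
        ((cdhCohomology (Spec (CommRingCat.of (PowerSeries k))) m 1).map ι.op) := by
  obtain ⟨C⟩ := exists_charts k
  obtain ⟨F⟩ := exists_fibre C
  exact ⟨C.XFT, F.YFT, F.ιFT, ⟨C.regular, C.connected, C.proj, C.flat, F.reduced, F.range_ι,
    F.snc, F.dim⟩, F.not_surjective m hm⟩
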